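import Pool.Agent.helper20.SOL.Spec

/-! # Project sol, row DSM: a linear function of constant norm on `TD n t s` is a similarity -/

set_option autoImplicit false

namespace Pool.Agent.SOL

open Pool.Agent.helper54.SOG Finset

open scoped BigOperators

/-- a vector of the orbit with a given support -/
lemma DSM_ex {n t s : ℕ} (S : Finset (Fin n)) (hS : S.card = t + s) :
    ∃ x ∈ TD n t s, ∀ i, x i ≠ 0 ↔ i ∈ S := by
  obtain ⟨A, hAS, hA⟩ := exists_subset_card_eq (show t ≤ S.card by omega)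
  refine ⟨fun i => if i ∈ A then 2 else if i ∈ S then 1 else 0, ⟨fun i => ?_, ?_, ?_⟩, fun i => ?_⟩
  · simp only
    split_ifs <;> norm_num
  · unfold cnt
    rw [← hA]
    congr 1
    ext i
    rw [mem_filter]
    by_cases h1 : i ∈ A
    · simp [h1]
    · by_cases h2 : i ∈ S
      · simp [h1, h2]
      · simp [h1, h2]
  · unfold cnt
    have h3 : (S \ A).card = s := by
      rw [card_sdiff_of_subset hAS]
      omega
    rw [← h3]
    congr 1
    ext i
    rw [mem_filter, mem_sdiff]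
    by_cases h1 : i ∈ A
    · simp [h1]
    · by_cases h2 : i ∈ S
      · simp [h1, h2]
      · simp [h1, h2]
  · by_cases h1 : i ∈ A
    · simp [h1, hAS h1]
    · by_cases h2 : i ∈ S
      · simp [h1, h2]
      · simp [h1, h2]

/-- the linear function -/
noncomputable def DSM_F {n m : ℕ} (T : Fin n → Fin m → ℝ) (x : Vec n) : Fin m → ℝ :=
  ∑ i, (x i : ℝ) • T i

lemma DSM_flp {n m : ℕ} (T : Fin n → Fin m → ℝ) (x : Vec n) (i : Fin n) :
    DSM_F T (flp i x) = DSM_F T x - (2 * (x i : ℝ)) • T i := by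
  unfold DSM_F
  have h1 : ∀ j, ((flp i x j : ℤ) : ℝ) • T j =
      (x j : ℝ) • T j - (if j = i then (2 * (x i : ℝ)) • T i else 0) := by
    intro j
    unfold flp
    by_cases h : j = i
    · rw [if_pos h, if_pos h, h]
      push_cast
      rw [← sub_smul]
      congr 1
      ring
    · rw [if_neg h, if_neg h, sub_zero]
  rw [sum_congr rfl fun j _ => h1 j, sum_sub_distrib, sum_ite_eq']
  simp

lemma DSM_dot {n m t s : ℕ} {N : ℝ} {T : Fin n → Fin m → ℝ} (hC : CNT_stmt)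
    (h : ∀ x ∈ TD n t s, DSM_F T x ⬝ᵥ DSM_F T x = N) {x : Vec n} (hx : x ∈ TD n t s) {i : Fin n}
    (hi : x i ≠ 0) : DSM_F T x ⬝ᵥ T i = (x i : ℝ) * (T i ⬝ᵥ T i) := by
  have h1 := h _ (hC.2.2.2.1 n t s x i hx)
  have h2 := h x hx
  rw [DSM_flp, sub_dotProduct, dotProduct_sub, dotProduct_sub, smul_dotProduct, smul_dotProduct,
    dotProduct_smul, dotProduct_smul, h2, dotProduct_comm (T i) (DSM_F T x)] at h1
  simp only [smul_eq_mul] at h1
  have hi' : (x i : ℝ) ≠ 0 := by exact_mod_cast hi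
  have h3 : 4 * (x i : ℝ) * (DSM_F T x ⬝ᵥ T i - (x i : ℝ) * (T i ⬝ᵥ T i)) = 0 := by linarith
  rcases mul_eq_zero.1 h3 with h4 | h4
  · exfalso
    rcases mul_eq_zero.1 h4 with h5 | h5
    · norm_num at h5
    · exact hi' h5
  · linarith

lemma DSM_orth {n m t s : ℕ} {N : ℝ} {T : Fin n → Fin m → ℝ} (hC : CNT_stmt) (hts : 2 ≤ t + s)
    (hn : t + s < n) (h : ∀ x ∈ TD n t s, DSM_F T x ⬝ᵥ DSM_F T x = N) {i j : Fin n} (hij : i ≠ j) :
    T i ⬝ᵥ T j = 0 := by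
  have hc : ({i, j} : Finset (Fin n)).card = 2 := card_pair hij
  obtain ⟨S, hS1, -, hS2⟩ := exists_subsuperset_card_eq (subset_univ ({i, j} : Finset (Fin n)))
    (show ({i, j} : Finset (Fin n)).card ≤ t + s by omega)
    (show t + s ≤ (univ : Finset (Fin n)).card by rw [card_univ, Fintype.card_fin]; omega)
  obtain ⟨x, hx, hx2⟩ := DSM_ex S hS2
  have hi : x i ≠ 0 := (hx2 i).2 (hS1 (by simp))
  have hj : x j ≠ 0 := (hx2 j).2 (hS1 (by simp))
  have h1 := DSM_dot hC h hx hj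
  have h2 := DSM_dot hC h (hC.2.2.2.1 n t s x i hx) (i := j) (by
    unfold flp
    rw [if_neg hij.symm]
    exact hj)
  rw [DSM_flp, sub_dotProduct, smul_dotProduct, h1] at h2
  have h3 : ((flp i x j : ℤ) : ℝ) = (x j : ℝ) := by
    unfold flp
    rw [if_neg hij.symm]
  rw [h3] at h2
  simp only [smul_eq_mul] at h2
  have hi' : (x i : ℝ) ≠ 0 := by exact_mod_cast hi
  have h4 : 2 * (x i : ℝ) * (T i ⬝ᵥ T j) = 0 := by linarith
  rcases mul_eq_zero.1 h4 with h5 | h5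
  · exfalso
    rcases mul_eq_zero.1 h5 with h6 | h6
    · norm_num at h6
    · exact hi' h6
  · exact h5

lemma DSM_sq {n m t s : ℕ} {N : ℝ} {T : Fin n → Fin m → ℝ} (hC : CNT_stmt)
    (h : ∀ x ∈ TD n t s, DSM_F T x ⬝ᵥ DSM_F T x = N) {x : Vec n} (hx : x ∈ TD n t s) :
    ∑ i, (x i : ℝ) ^ 2 * (T i ⬝ᵥ T i) = N := by
  rw [← h x hx]
  have h1 : DSM_F T x ⬝ᵥ DSM_F T x = ∑ i, (x i : ℝ) * (DSM_F T x ⬝ᵥ T i) := by
    conv_lhs => rw [show DSM_F T x ⬝ᵥ DSM_F T x = DSM_F T x ⬝ᵥ (∑ i, (x i : ℝ) • T i) from rfl]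
    rw [dotProduct_sum]
    refine sum_congr rfl fun i _ => ?_
    rw [dotProduct_smul, smul_eq_mul]
  rw [h1]
  refine sum_congr rfl fun i _ => ?_
  by_cases hi : x i = 0
  · rw [hi]
    simp
  · rw [DSM_dot hC h hx hi]
    ring

lemma DSM_eq {n m t s : ℕ} {N : ℝ} {T : Fin n → Fin m → ℝ} (hC : CNT_stmt) (hts : 2 ≤ t + s)
    (hn : t + s < n) (h : ∀ x ∈ TD n t s, DSM_F T x ⬝ᵥ DSM_F T x = N) {i j : Fin n} (hij : i ≠ j) :
    T i ⬝ᵥ T i = T j ⬝ᵥ T j := by
  have hc : ((univ : Finset (Fin n)).erase j).card = n - 1 := by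
    rw [card_erase_of_mem (mem_univ _), card_univ, Fintype.card_fin]
  obtain ⟨S, hS1, hS3, hS2⟩ := exists_subsuperset_card_eq
    (show ({i} : Finset (Fin n)) ⊆ univ.erase j by
      rw [singleton_subset_iff]
      exact mem_erase.2 ⟨hij, mem_univ _⟩)
    (show ({i} : Finset (Fin n)).card ≤ t + s by rw [card_singleton]; omega)
    (show t + s ≤ ((univ : Finset (Fin n)).erase j).card by omega)
  obtain ⟨x, hx, hx2⟩ := DSM_ex S hS2
  have hi : x i ≠ 0 := (hx2 i).2 (hS1 (by simp))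
  have hj : x j = 0 := by
    by_contra hcon
    have h1 := hS3 ((hx2 j).1 hcon)
    exact (mem_erase.1 h1).1 rfl
  have h1 := DSM_sq hC h hx
  have h2 := DSM_sq hC h (hC.2.2.2.2.1 n t s x i j hx)
  have h3 : ∑ l, (((swp i j x l : ℤ) : ℝ) ^ 2 - (x l : ℝ) ^ 2) * (T l ⬝ᵥ T l) = 0 := by
    rw [sum_congr rfl fun l _ => sub_mul _ _ _, sum_sub_distrib, h1, h2, sub_self]
  rw [sum_eq_add i j hij (by
    intro l _ hl
    unfold swp
    rw [Equiv.swap_apply_of_ne_of_ne hl.1 hl.2, sub_self, zero_mul])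
    (fun h => absurd (mem_univ _) h) (fun h => absurd (mem_univ _) h)] at h3
  unfold swp at h3
  rw [Equiv.swap_apply_left, Equiv.swap_apply_right, hj] at h3
  push_cast at h3
  have hi' : (x i : ℝ) ^ 2 ≠ 0 := pow_ne_zero 2 (by exact_mod_cast hi)
  have h4 : (x i : ℝ) ^ 2 * (T i ⬝ᵥ T i - T j ⬝ᵥ T j) = 0 := by linarith
  rcases mul_eq_zero.1 h4 with h5 | h5
  · exact absurd h5 hi'
  · linarith

lemma DSM_sum {n t s : ℕ} {x : Vec n} (hx : x ∈ TD n t s) : ∑ i, (x i : ℝ) ^ 2 = 4 * t + s := by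
  obtain ⟨h1, h2, h3⟩ := hx
  have h4 : ∀ i, (x i : ℝ) ^ 2 = (if |x i| = 2 then 4 else 0) + (if |x i| = 1 then 1 else 0) := by
    intro i
    have h5 := abs_le.1 (h1 i)
    obtain ⟨z, hz⟩ : ∃ z, z = x i := ⟨_, rfl⟩
    rw [← hz] at h5 ⊢
    obtain ⟨h6, h7⟩ := h5
    interval_cases z <;> norm_num
  rw [sum_congr rfl fun i _ => h4 i, sum_add_distrib, ← h2, ← h3, sum_ite, sum_ite, sum_const,
    sum_const_zero, add_zero, sum_const, sum_const_zero, add_zero, nsmul_eq_mul, nsmul_eq_mul, mul_one]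
  unfold cnt
  ring

theorem DSM (hCNT : CNT_stmt) : DSM_stmt := by
  intro n m t s N T hts hn h
  have h' : ∀ x ∈ TD n t s, DSM_F T x ⬝ᵥ DSM_F T x = N := h
  refine ⟨fun i => ?_, fun i j hij => DSM_orth hCNT hts hn h' hij⟩
  obtain ⟨S, -, hS2⟩ := exists_subset_card_eq (s := (univ : Finset (Fin n))) (n := t + s)
    (by rw [card_univ, Fintype.card_fin]; omega)
  obtain ⟨x, hx, -⟩ := DSM_ex S hS2
  have h1 := DSM_sq hCNT h' hx
  have h2 : ∀ j, (x j : ℝ) ^ 2 * (T j ⬝ᵥ T j) = (x j : ℝ) ^ 2 * (T i ⬝ᵥ T i) := by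
    intro j
    by_cases hij : j = i
    · rw [hij]
    · rw [DSM_eq hCNT hts hn h' hij]
  rw [sum_congr rfl fun j _ => h2 j, ← sum_mul, DSM_sum hx] at h1
  have h3 : (0 : ℝ) < 4 * t + s := by
    have h4 : 0 < 4 * t + s := by omega
    exact_mod_cast h4
  rw [eq_div_iff h3.ne', mul_comm]
  exact h1

end Pool.Agent.SOL
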