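import Pool.Agent.helper20.SOL.SpecN

set_option autoImplicit false

namespace Pool.Agent.SOL

open Pool.Agent.helper54.SOG Finset

open scoped BigOperators

private theorem TE_rank {V : Type} [AddCommGroup V] [Module ℝ V] [Module.Finite ℝ V]
    (L : (Fin 8 → ℝ) →ₗ[ℝ] V) (hL : Function.Surjective L) :
    Module.finrank ℝ V + Module.finrank ℝ (LinearMap.ker L) = 8 := by
  have h1 := LinearMap.finrank_range_add_finrank_ker L
  rw [LinearMap.range_eq_top.2 hL, finrank_top, Module.finrank_fin_fun] at h1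
  exact h1

private theorem TE_W7 : ∃ W : Submodule ℝ (Fin 8 → ℝ), (∀ u : Fin 8 → ℝ, u 6 + u 7 = 0 → u ∈ W) ∧
    Module.finrank ℝ W ≤ 7 := by
  let L : (Fin 8 → ℝ) →ₗ[ℝ] ℝ :=
    { toFun := fun u => u 6 + u 7
      map_add' := fun u v => by simp only [Pi.add_apply]; ring
      map_smul' := fun c u => by
        simp only [Pi.smul_apply, smul_eq_mul, RingHom.id_apply]; ring }
  have hL : ∀ u : Fin 8 → ℝ, L u = u 6 + u 7 := fun u => rfl
  have hs : Function.Surjective L := by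
    intro c
    refine ⟨fun i => if i = 6 then c else 0, ?_⟩
    rw [hL]
    simp
  have h1 := TE_rank L hs
  rw [Module.finrank_self] at h1
  exact ⟨LinearMap.ker L, fun u hu => LinearMap.mem_ker.2 (by rw [hL, hu]), by omega⟩

private theorem TE_W6 : ∃ W : Submodule ℝ (Fin 8 → ℝ),
    (∀ u : Fin 8 → ℝ, u 6 + u 7 = 0 → u 5 = u 6 → u ∈ W) ∧ Module.finrank ℝ W ≤ 6 := by
  let L : (Fin 8 → ℝ) →ₗ[ℝ] ℝ × ℝ :=
    { toFun := fun u => (u 6 + u 7, u 5 - u 6)
      map_add' := fun u v => by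
        simp only [Pi.add_apply, Prod.mk_add_mk, Prod.mk.injEq]
        constructor <;> ring
      map_smul' := fun c u => by
        simp only [Pi.smul_apply, smul_eq_mul, RingHom.id_apply, Prod.smul_mk, Prod.mk.injEq]
        constructor <;> ring }
  have hL : ∀ u : Fin 8 → ℝ, L u = (u 6 + u 7, u 5 - u 6) := fun u => rfl
  have hs : Function.Surjective L := by
    rintro ⟨c, d⟩
    refine ⟨fun i => if i = 7 then c else if i = 5 then d else 0, ?_⟩
    rw [hL]
    simp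
  have h1 := TE_rank L hs
  rw [Module.finrank_prod, Module.finrank_self] at h1
  exact ⟨LinearMap.ker L, fun u hu hv => LinearMap.mem_ker.2 (by rw [hL, hu, hv, sub_self]; rfl),
    by omega⟩

theorem TE (hELB : ELB_stmt) : TE_stmt := by
  obtain ⟨h1, h2, h3, h4, h5⟩ := hELB
  have key : ∀ a b : Vec 8, a ∈ EL → b ∈ EL → (8 : ℤ) ∣ dp (a - b) (a - b) := by
    intro a b ha hb
    have h6 := (h1 a b ha hb).2.1
    exact Int.dvd_of_emod_eq_zero (h2 _ _ h6 h6).2
  intro P r k hP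
  rcases hP with ⟨rfl, rfl⟩ | ⟨rfl, rfl⟩ | ⟨rfl, rfl⟩
  · refine ⟨fun x hx => (h4 k x).1 hx, fun x hx => ((h3 k x).1 hx).2,
      fun a ha b hb => key a b ((h3 k a).1 ha).1 ((h3 k b).1 hb).1, ⊤, fun x _ => Submodule.mem_top, ?_⟩
    rw [finrank_top, Module.finrank_fin_fun]
  · refine ⟨fun x hx => (h4 k x).2.1 hx, fun x hx => ((h3 k x).2.1 hx).2.2,
      fun a ha b hb => key a b ((h3 k a).2.1 ha).1 ((h3 k b).2.1 hb).1, ?_⟩
    obtain ⟨W, hW, hr⟩ := TE_W7
    refine ⟨W, fun x hx => hW _ ?_, hr⟩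
    have h6 := ((h3 k x).2.1 hx).2.1
    unfold cv
    exact_mod_cast h6
  · refine ⟨fun x hx => (h4 k x).2.2 hx, fun x hx => ((h3 k x).2.2 hx).2.2.2,
      fun a ha b hb => key a b ((h3 k a).2.2 ha).1 ((h3 k b).2.2 hb).1, ?_⟩
    obtain ⟨W, hW, hr⟩ := TE_W6
    refine ⟨W, fun x hx => hW _ ?_ ?_, hr⟩
    · have h6 := ((h3 k x).2.2 hx).2.1
      unfold cv
      exact_mod_cast h6
    · have h6 := ((h3 k x).2.2 hx).2.2.1
      unfold cv
      exact_mod_cast h6

end Pool.Agent.SOL
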